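import Pool.Agent.H98.RFZ.Targets2

/-!
# A1: scaling up, deterministic part
-/

set_option autoImplicit false

namespace Pool.Agent.H80.RFZ

open Pool.Agent.H98.RFC Pool.Agent.H98.RFZ

/-! ### the norm -/

theorem nrm_eq (x : Site) : nrm x = ‖(⟨(x.1 : ℝ), (x.2 : ℝ)⟩ : ℂ)‖ := by
  rw [Complex.norm_eq_sqrt_sq_add_sq]
  unfold nrm nsq
  push_cast
  rfl

theorem nrm_nonneg (x : Site) : 0 ≤ nrm x := Real.sqrt_nonneg _

theorem nrm_add (x y : Site) : nrm (x + y) ≤ nrm x + nrm y := by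
  rw [nrm_eq, nrm_eq, nrm_eq]
  refine le_trans (le_of_eq ?_) (norm_add_le _ _)
  congr 1
  apply Complex.ext
  · simp
  · simp

theorem nrm_neg (x : Site) : nrm (-x) = nrm x := by
  unfold nrm nsq
  congr 2
  simp

theorem nrm_comm (x y : Site) : nrm (x - y) = nrm (y - x) := by
  rw [← nrm_neg, neg_sub]

theorem nrm_tri (x y z : Site) : nrm (x - z) ≤ nrm (x - y) + nrm (y - z) := by
  have h := nrm_add (x - y) (y - z)
  rwa [sub_add_sub_cancel] at h

theorem nrm_zero : nrm 0 = 0 := by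
  unfold nrm nsq
  simp

theorem nrm_sq (x : Site) : nrm x ^ 2 = (nsq x : ℝ) := by
  unfold nrm
  rw [Real.sq_sqrt]
  unfold nsq
  push_cast
  positivity

theorem le_nrm_iff (r : ℕ) (x : Site) : (r : ℤ) ^ 2 ≤ nsq x ↔ (r : ℝ) ≤ nrm x := by
  rw [← abs_of_nonneg (nrm_nonneg x), ← abs_of_nonneg (Nat.cast_nonneg (α := ℝ) r), ← sq_le_sq,
    nrm_sq]
  norm_cast

theorem nrm_le_iff (r : ℕ) (x : Site) : nsq x ≤ (r : ℤ) ^ 2 ↔ nrm x ≤ (r : ℝ) := by
  rw [← abs_of_nonneg (nrm_nonneg x), ← abs_of_nonneg (Nat.cast_nonneg (α := ℝ) r), ← sq_le_sq,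
    nrm_sq]
  norm_cast

theorem mem_eb (x z : Site) (r : ℕ) : x ∈ eb z r ↔ nrm (x - z) ≤ r := by
  rw [← nrm_le_iff]
  unfold eb bx
  rw [Finset.mem_filter, Finset.mem_product, Finset.mem_Icc, Finset.mem_Icc]
  refine ⟨fun h => h.2, fun h => ⟨?_, h⟩⟩
  unfold nsq at h
  have h1 : (x - z).1 = x.1 - z.1 := rfl
  have h2 : (x - z).2 = x.2 - z.2 := rfl
  rw [h1, h2] at h
  have hr : (0 : ℤ) ≤ r := Int.natCast_nonneg r
  have h3 : |x.1 - z.1| ≤ r := abs_le_of_sq_le_sq (by nlinarith [sq_nonneg (x.2 - z.2)]) hr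
  have h4 : |x.2 - z.2| ≤ r := abs_le_of_sq_le_sq (by nlinarith [sq_nonneg (x.1 - z.1)]) hr
  rw [abs_le] at h3 h4
  refine ⟨⟨?_, ?_⟩, ⟨?_, ?_⟩⟩ <;> linarith

theorem nrm_le_abs (x : Site) : nrm x ≤ |(x.1 : ℝ)| + |(x.2 : ℝ)| := by
  rw [nrm_eq]
  exact Complex.norm_le_abs_re_add_abs_im _

theorem nrm_box {R : ℕ} {x : Site} (h : x ∈ box R) : nrm x ≤ 2 * R := by
  unfold box at h
  rw [Finset.mem_product, Finset.mem_Icc, Finset.mem_Icc] at h
  have h1 : |(x.1 : ℝ)| ≤ R := by
    rw [abs_le]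
    exact ⟨by exact_mod_cast h.1.1, by exact_mod_cast h.1.2⟩
  have h2 : |(x.2 : ℝ)| ≤ R := by
    rw [abs_le]
    exact ⟨by exact_mod_cast h.2.1, by exact_mod_cast h.2.2⟩
  have h3 := nrm_le_abs x
  linarith

theorem nrm_J {R : ℕ} {J : Site → ℝ} (hJ : IsCoupling R J) {x : Site} (h : 0 < J x) :
    nrm x ≤ 2 * R := by
  by_cases hx : x ∈ box R
  · exact nrm_box hx
  · rw [hJ.range x hx] at h
    exact absurd h (lt_irrefl _)

theorem grid (v : ℕ) (hv : 0 < v) (a : Site) : ∃ y : Site, nrm (a - sm v y) ≤ 3 / 4 * v := by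
  have hv' : (0 : ℝ) < v := by exact_mod_cast hv
  refine ⟨(round ((a.1 : ℝ) / v), round ((a.2 : ℝ) / v)), ?_⟩
  have key : ∀ m : ℤ, |(m : ℝ) - (v : ℝ) * (round ((m : ℝ) / v) : ℤ)| ≤ v / 2 := by
    intro m
    have h1 := abs_sub_round ((m : ℝ) / v)
    have h2 : (m : ℝ) - (v : ℝ) * (round ((m : ℝ) / v) : ℤ) =
        v * ((m : ℝ) / v - (round ((m : ℝ) / v) : ℤ)) := by
      field_simp
    rw [h2, abs_mul, abs_of_pos hv']
    nlinarith
  have h1 := key a.1
  have h2 := key a.2
  have h3 : nrm (a - sm v (round ((a.1 : ℝ) / v), round ((a.2 : ℝ) / v))) ^ 2 ≤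
      (3 / 4 * (v : ℝ)) ^ 2 := by
    rw [nrm_sq]
    unfold nsq sm
    push_cast
    have e1 : ((a - ((v : ℤ) * round ((a.1 : ℝ) / v), (v : ℤ) * round ((a.2 : ℝ) / v))).1 : ℝ) =
        (a.1 : ℝ) - (v : ℝ) * (round ((a.1 : ℝ) / v) : ℤ) := by
      push_cast [Prod.fst_sub]
      rfl
    have e2 : ((a - ((v : ℤ) * round ((a.1 : ℝ) / v), (v : ℤ) * round ((a.2 : ℝ) / v))).2 : ℝ) =
        (a.2 : ℝ) - (v : ℝ) * (round ((a.2 : ℝ) / v) : ℤ) := by
      push_cast [Prod.snd_sub]
      rfl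
    rw [e1, e2]
    have h4 := sq_le_sq' (abs_le.1 h1).1 (abs_le.1 h1).2
    have h5 := sq_le_sq' (abs_le.1 h2).1 (abs_le.1 h2).2
    nlinarith [sq_nonneg (v : ℝ)]
  exact le_of_sq_le_sq h3 (by positivity)

/-! ### paths -/

/-- all grid cells near `a` are good -/
def Gd (R : ℕ) (J h : Site → ℝ) (N : Site → ℝ) (v : ℕ) (a : Site) : Prop :=
  ∀ y : Site, nrm (a - sm v y) ≤ 3 / 4 * v → ¬ BadN R J h N v (sm v y)

theorem near (hDM : Z_DM) {R : ℕ} {J : Site → ℝ} (hJ : IsCoupling R J) {h : Site → ℝ}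
    {v w : ℕ} (hw : 100 * v ≤ w) {z a : Site} (hz : nrm z ≤ 9 * w)
    (ha : a ∈ Ds R J h (eb 0 (10 * w))) (haz : nrm (a - z) ≤ 2 * v) :
    a ∈ Ds R J h (eb z (10 * v)) := by
  have hw' : 100 * (v : ℝ) ≤ w := by exact_mod_cast hw
  have hv0 : (0 : ℝ) ≤ v := Nat.cast_nonneg v
  have h1 : eb z (10 * v) ⊆ eb 0 (10 * w) := by
    intro b hb
    rw [mem_eb] at hb ⊢
    have h2 := nrm_tri b z 0
    rw [sub_zero] at h2 ⊢
    rw [sub_zero] at h2
    push_cast at hb ⊢
    linarith
  refine hDM R J hJ h _ _ h1 (Finset.mem_inter.2 ⟨ha, ?_⟩)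
  rw [mem_eb]
  push_cast
  linarith

/-- the number of steps of a piece of a path without bad cells -/
theorem chain (hDM : Z_DM) {R : ℕ} {J : Site → ℝ} (hJ : IsCoupling R J) {h : Site → ℝ}
    {N : Site → ℝ} {α β : ℝ} (hN : IsN N α β) (hβ : 0 < β) {v w : ℕ}
    (hv : 20 * R + 20 ≤ v) (hw : 100 * v ≤ w) {k : ℕ} {x : ℕ → Site}
    (hp : IsPath J (Ds R J h (eb 0 (10 * w))) k x) (h8 : ∀ i, i ≤ k → x i ∈ eb 0 (8 * w)) :
    ∀ n i : ℕ, i + n ≤ k → (∀ l, i ≤ l → l < i + n → Gd R J h N v (x l)) →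
      N (x (i + n) - x i) ≤ n + β * v := by
  have hw' : 100 * (v : ℝ) ≤ w := by exact_mod_cast hw
  have hv' : 20 * (R : ℝ) + 20 ≤ v := by exact_mod_cast hv
  have hR0 : (0 : ℝ) ≤ R := Nat.cast_nonneg R
  intro n
  induction n using Nat.strong_induction_on with
  | _ n ih =>
    intro i hi hg
    classical
    by_cases hfar : ∃ m, m ≤ n ∧ (v : ℝ) ≤ nrm (x (i + m) - x i)
    · have hm := Nat.find_spec hfar
      have hmin : ∀ m', m' < Nat.find hfar → nrm (x (i + m') - x i) < v := by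
        intro m' hm'
        by_contra hc
        exact Nat.find_min hfar hm' ⟨hm'.le.trans hm.1, not_lt.1 hc⟩
      set m := Nat.find hfar with hmdef
      have hm0 : 0 < m := by
        rcases Nat.eq_zero_or_pos m with h0 | h0
        · exfalso
          have h1 := hm.2
          rw [h0, add_zero, sub_self, nrm_zero] at h1
          linarith
        · exact h0
      have hlast : nrm (x (i + m) - x i) ≤ 11 / 10 * v := by
        have h1 := hmin (m - 1) (by omega)
        have h2 := nrm_tri (x (i + m)) (x (i + (m - 1))) (x i)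
        have h3 : i + m = i + (m - 1) + 1 := by omega
        have h4 := nrm_J hJ (hp.2 (i + (m - 1)) (by omega))
        rw [← h3] at h4
        linarith
      have hall : ∀ l, l ≤ m → nrm (x (i + l) - x i) ≤ 11 / 10 * v := by
        intro l hl
        rcases Nat.lt_or_eq_of_le hl with h1 | h1
        · have h2 := hmin l h1
          linarith
        · rw [h1]; exact hlast
      obtain ⟨y, hy⟩ := grid v (by omega) (x i)
      have hnb := hg i le_rfl (by omega) y hy
      have hxi : nrm (x i) ≤ 8 * w := by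
        have h1 := h8 i (by omega)
        rw [mem_eb, sub_zero] at h1
        push_cast at h1
        exact h1
      have hz : nrm (sm v y) ≤ 9 * w := by
        have h1 := nrm_tri (sm v y) (x i) 0
        rw [sub_zero, sub_zero, nrm_comm (sm v y) (x i)] at h1
        linarith
      have hnz : ∀ l, l ≤ m → nrm (x (i + l) - sm v y) ≤ 2 * v := by
        intro l hl
        have h1 := nrm_tri (x (i + l)) (x i) (sm v y)
        have h2 := hall l hl
        linarith
      have hpiece : N (x (i + m) - x i) ≤ m := by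
        by_contra hc
        apply hnb
        refine ⟨m, fun l => x (i + l), ⟨fun l hl => ?_, fun l hl => ?_⟩, fun l hl => ?_, ?_, ?_, ?_⟩
        · exact near hDM hJ hw hz (hp.1 (i + l) (by omega)) (hnz l hl)
        · exact hp.2 (i + l) (by omega)
        · rw [mem_eb]
          have h1 := hnz l hl
          push_cast
          linarith
        · rw [mem_eb]
          have h1 := hnz 0 (by omega)
          push_cast
          exact h1
        · rw [le_nrm_iff]
          exact hm.2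
        · exact not_le.1 hc
      have hrest := ih (n - m) (by omega) (i + m) (by omega) (fun l h1 h2 =>
        hg l (by omega) (by omega))
      have h5 : i + m + (n - m) = i + n := by omega
      rw [h5, Nat.cast_sub hm.1] at hrest
      have h6 := hN.1 (x (i + n) - x (i + m)) (x (i + m) - x i)
      rw [sub_add_sub_cancel] at h6
      linarith
    · push Not at hfar
      have h1 := hfar n le_rfl
      have h2 := (hN.2.2 (x (i + n) - x i)).2
      have h3 : β * nrm (x (i + n) - x i) ≤ β * v := mul_le_mul_of_nonneg_left h1.le hβ.le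
      have h4 : (0 : ℝ) ≤ n := Nat.cast_nonneg n
      linarith

theorem pf_A1 (hDM : Z_DM) : B_A1 := by
  intro R J hJ h N α β c hα hαβ hN v w hv hw hc0 hc hbad
  obtain ⟨k, x, hp, h8, h2w, hX, hk⟩ := hbad
  have hβ : 0 < β := lt_of_lt_of_le hα hαβ
  have hw' : 100 * (v : ℝ) ≤ w := by exact_mod_cast hw
  have hv' : 20 * (R : ℝ) + 20 ≤ v := by exact_mod_cast hv
  have hR0 : (0 : ℝ) ≤ R := Nat.cast_nonneg R
  have hv0 : (0 : ℝ) < v := by linarith
  have hw0 : (0 : ℝ) < w := by linarith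
  have h8' : ∀ i, i ≤ k → nrm (x i) ≤ 8 * w := by
    intro i hi
    have h1 := h8 i hi
    rw [mem_eb, sub_zero] at h1
    push_cast at h1
    exact h1
  have hch := chain hDM hJ hN hβ hv hw hp h8
  rw [le_nrm_iff] at hX
  -- the contradiction at the end
  have hfin : ¬ (N (x k - x 0) ≤ k + 47 * (β * v)) := by
    intro h1
    have h2 := (hN.2.2 (x k - x 0)).1
    have h3 : α * w ≤ N (x k - x 0) := le_trans (mul_le_mul_of_nonneg_left hX hα.le) h2
    have h4 : 0 ≤ N (x k - x 0) := le_trans (by positivity) h3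
    have h5 : c * N (x k - x 0) ≤ (1 - 100 * (β / α) * ((v : ℝ) / w)) * N (x k - x 0) :=
      mul_le_mul_of_nonneg_right hc h4
    have h6 : 100 * (β * v) ≤ 100 * (β / α) * ((v : ℝ) / w) * N (x k - x 0) := by
      have h7 : 100 * (β / α) * ((v : ℝ) / w) * (α * w) = 100 * (β * v) := by
        field_simp
      rw [← h7]
      exact mul_le_mul_of_nonneg_left h3 (by positivity)
    have h8 : 0 < β * v := by positivity
    have hk' : (k : ℝ) < c * N (x k - x 0) := hk
    nlinarith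
  by_contra hcon
  push Not at hcon
  have hpair : ∀ y₁ y₂ : Site, nrm (sm v y₁) ≤ 9 * w → nrm (sm v y₂) ≤ 9 * w →
      BadN R J h N v (sm v y₁) → BadN R J h N v (sm v y₂) →
      nrm (sm v y₁ - sm v y₂) ≤ 20 * v := by
    intro y₁ y₂ h1 h2 b1 b2
    by_contra hc2
    push Not at hc2
    have m1 : sm v y₁ ∈ eb 0 (9 * w) := by
      rw [mem_eb, sub_zero]; push_cast; exact h1
    have m2 : sm v y₂ ∈ eb 0 (9 * w) := by
      rw [mem_eb, sub_zero]; push_cast; exact h2
    refine hcon y₁ y₂ m1 m2 ?_ b1 b2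
    by_contra hc3
    push Not at hc3
    have h3 := (nrm_le_iff (20 * v) (sm v y₁ - sm v y₂)).1 (by push_cast; exact hc3)
    push_cast at h3
    linarith
  by_cases hall : ∀ l, l ≤ k → Gd R J h N v (x l)
  · apply hfin
    have h1 := hch k 0 (by omega) (fun l _ h2 => hall l (by omega))
    rw [zero_add] at h1
    have h2 : 0 < β * v := by positivity
    linarith
  · push Not at hall
    obtain ⟨m, hmk, hm⟩ := hall
    unfold Gd at hm
    push Not at hm
    obtain ⟨y₁, hy₁, hb₁⟩ := hm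
    have hz₁ : nrm (sm v y₁) ≤ 9 * w := by
      have h1 := nrm_tri (sm v y₁) (x m) 0
      rw [sub_zero, sub_zero, nrm_comm (sm v y₁) (x m)] at h1
      have h2 := h8' m hmk
      linarith
    classical
    let B : Finset ℕ := (Finset.range (k + 1)).filter (fun l => nrm (x l - sm v y₁) < 22 * v)
    have hB : B.Nonempty := ⟨m, Finset.mem_filter.2 ⟨Finset.mem_range.2 (by omega), by linarith⟩⟩
    have hout : ∀ l, l ≤ k → l ∉ B → Gd R J h N v (x l) := by
      intro l hl hlB y hy hbad2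
      have h1 : 22 * (v : ℝ) ≤ nrm (x l - sm v y₁) := by
        by_contra hc4
        exact hlB (Finset.mem_filter.2 ⟨Finset.mem_range.2 (by omega), not_le.1 hc4⟩)
      have hz : nrm (sm v y) ≤ 9 * w := by
        have h1 := nrm_tri (sm v y) (x l) 0
        rw [sub_zero, sub_zero, nrm_comm (sm v y) (x l)] at h1
        have h2 := h8' l hl
        linarith
      have h2 := hpair y y₁ hz hz₁ hbad2 hb₁
      have h3 := nrm_tri (x l) (sm v y) (sm v y₁)
      linarith
    set e₁ := B.min' hB with he₁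
    set e₂ := B.max' hB with he₂
    have hm1 := B.min'_mem hB
    have hm2 := B.max'_mem hB
    rw [← he₁] at hm1
    rw [← he₂] at hm2
    have hn1 := (Finset.mem_filter.1 hm1).2
    have hn2 := (Finset.mem_filter.1 hm2).2
    have hk1 : e₁ ≤ k := by
      have := Finset.mem_range.1 (Finset.mem_filter.1 hm1).1
      omega
    have hk2 : e₂ ≤ k := by
      have := Finset.mem_range.1 (Finset.mem_filter.1 hm2).1
      omega
    have h12 : e₁ ≤ e₂ := B.min'_le _ hm2
    have hA := hch e₁ 0 (by omega) (fun l _ h2 => hout l (by omega) (fun hlB => by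
      have := B.min'_le l hlB
      omega))
    rw [zero_add] at hA
    apply hfin
    have hbv : 0 < β * v := by positivity
    have h12' : (e₁ : ℝ) ≤ e₂ := by exact_mod_cast h12
    rcases Nat.lt_or_eq_of_le hk2 with hlt | heq
    · have hC := hch (k - (e₂ + 1)) (e₂ + 1) (by omega) (fun l h1 h2 => hout l (by omega)
        (fun hlB => by
          have := B.le_max' l hlB
          omega))
      have h5 : e₂ + 1 + (k - (e₂ + 1)) = k := by omega
      rw [h5, Nat.cast_sub (by omega)] at hC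
      push_cast at hC
      have h6 := nrm_J hJ (hp.2 e₂ hlt)
      have h7 := nrm_tri (x (e₂ + 1)) (x e₂) (x e₁)
      have h9 := nrm_tri (x e₂) (sm v y₁) (x e₁)
      rw [nrm_comm (sm v y₁) (x e₁)] at h9
      have h10 : nrm (x (e₂ + 1) - x e₁) ≤ 45 * v := by linarith
      have h11 := (hN.2.2 (x (e₂ + 1) - x e₁)).2
      have h13 : β * nrm (x (e₂ + 1) - x e₁) ≤ β * (45 * v) :=
        mul_le_mul_of_nonneg_left h10 hβ.le
      have h14 := hN.1 (x k - x (e₂ + 1)) (x (e₂ + 1) - x e₁)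
      rw [sub_add_sub_cancel] at h14
      have h15 := hN.1 (x k - x e₁) (x e₁ - x 0)
      rw [sub_add_sub_cancel] at h15
      linarith
    · have h9 := nrm_tri (x e₂) (sm v y₁) (x e₁)
      rw [nrm_comm (sm v y₁) (x e₁)] at h9
      have h10 : nrm (x k - x e₁) ≤ 44 * v := by rw [← heq]; linarith
      have h11 := (hN.2.2 (x k - x e₁)).2
      have h13 : β * nrm (x k - x e₁) ≤ β * (44 * v) :=
        mul_le_mul_of_nonneg_left h10 hβ.le
      have h15 := hN.1 (x k - x e₁) (x e₁ - x 0)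
      rw [sub_add_sub_cancel] at h15
      have hk1' : (e₁ : ℝ) ≤ k := by exact_mod_cast hk1
      linarith

end Pool.Agent.H80.RFZ
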