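import Pool.Agent.H98.RFZ.Targets2

/-!
# STEP: one step of the induction over hard scales
-/

set_option autoImplicit false

open MeasureTheory ProbabilityTheory

namespace Pool.Agent.H80.RFZ

open Pool.Agent.H98.RFC Pool.Agent.H98.RFZ

theorem nq_le (p : Site) {a b a' b' c : ℝ} (hc : 0 ≤ c) (x : Site)
    (h : a' * (gdot p x : ℝ) ^ 2 + b' * (fdet p x : ℝ) ^ 2 ≤
      c ^ 2 * (a * (gdot p x : ℝ) ^ 2 + b * (fdet p x : ℝ) ^ 2)) :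
    Nq p a' b' x ≤ c * Nq p a b x := by
  unfold Nq
  rw [← mul_div_assoc]
  refine div_le_div_of_nonneg_right ?_ (Real.sqrt_nonneg _)
  have h1 := Real.sqrt_le_sqrt h
  rw [Real.sqrt_mul (sq_nonneg c), Real.sqrt_sq hc] at h1
  exact h1

theorem pB_mono (R : ℕ) (J : Site → ℝ) (ε : ℝ) {N N' : Site → ℝ} (h : ∀ x, N x ≤ N' x)
    (v : ℕ) : pB R J ε N v ≤ pB R J ε N' v := by
  have : IsProbabilityMeasure gam := by unfold gam; infer_instance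
  unfold pB
  refine ENNReal.toReal_mono (measure_ne_top _ _) (measure_mono ?_)
  rintro η ⟨k, x, h1, h2, h3, h4, h5⟩
  exact ⟨k, x, h1, h2, h3, h4, lt_of_lt_of_le h5 (h _)⟩

theorem st1 {A v : ℕ} (h : 1 ≤ v) : A * (v + 1) ≤ 2 * A * v := by
  have h1 : A * 1 ≤ A * v := Nat.mul_le_mul_left A h
  linarith

theorem st2 (θ : ℝ) : 1 - 2 * θ ≤ (1 - θ) ^ 2 := by
  have := sq_nonneg θ
  linarith

theorem st3 {a ρ κ : ℝ} (ha : 0 < a) (hρ : 0 ≤ ρ) (hκ : 0 ≤ κ) :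
    a * (1 - ρ) ≤ (1 + κ) ^ 2 * a := by
  have h1 : 0 ≤ a * ρ := by positivity
  have h2 : 0 ≤ a * (2 * κ + κ ^ 2) := by positivity
  linarith

theorem st4 {b κ : ℝ} (hb : 0 < b) (hκ : 0 ≤ κ) : b * (1 + κ) ≤ (1 + κ) ^ 2 * b := by
  have h2 : 0 ≤ b * (κ + κ ^ 2) := by positivity
  linarith

theorem st5 {a α ρ : ℝ} (ha : 0 < a) (h1 : α ^ 2 ≤ a) (hρ : ρ ≤ 1 / 2) :
    (α / 2) ^ 2 ≤ a * (1 - ρ) := by
  have h2 : 0 ≤ a * (1 / 2 - ρ) := mul_nonneg ha.le (by linarith)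
  linarith

theorem st6 {a β ρ : ℝ} (ha : 0 < a) (h1 : a ≤ β ^ 2) (hρ : 0 ≤ ρ) :
    a * (1 - ρ) ≤ (2 * β) ^ 2 := by
  have h2 : 0 ≤ a * ρ := by positivity
  linarith

theorem st7 {b α κ : ℝ} (hb : 0 < b) (h1 : α ^ 2 ≤ b) (hκ : 0 ≤ κ) :
    (α / 2) ^ 2 ≤ b * (1 + κ) := by
  have h2 : 0 ≤ b * κ := by positivity
  linarith

theorem st8 {b β κ : ℝ} (hb : 0 < b) (h1 : b ≤ β ^ 2) (hκ : κ ≤ 1) :
    b * (1 + κ) ≤ (2 * β) ^ 2 := by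
  have h2 : b * κ ≤ b * 1 := mul_le_mul_of_nonneg_left hκ hb.le
  linarith

theorem st9 {θ ρ : ℝ} (hθ : 0 < θ) (hρθ : ρ = 8 * θ) (hρ1 : ρ ≤ 1) :
    1 - 2 * ρ ≤ (1 - θ) ^ 2 * (1 - ρ) := by
  have h1 := mul_le_mul_of_nonneg_right (st2 θ) (by linarith : 0 ≤ 1 - ρ)
  have h2 : 0 ≤ θ * ρ := mul_nonneg hθ.le (by linarith)
  linarith

theorem st10 {θ κ : ℝ} (hθ : 0 < θ) (hθκ : 8 * θ ≤ κ) (hκ2 : κ < 1 / 2) :
    1 + κ / 2 ≤ (1 - θ) ^ 2 * (1 + κ) := by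
  have h1 := mul_le_mul_of_nonneg_right (st2 θ) (by linarith : 0 ≤ 1 + κ)
  have h2 : θ * κ ≤ θ * (1 / 2) := mul_le_mul_of_nonneg_left hκ2.le hθ.le
  linarith

theorem st11 {A v u : ℕ} (hA : 0 < A) (hv : v = u / A) (h1 : 1 ≤ v) : u ≤ 2 * A * v := by
  have h2 : u < A * (v + 1) := by
    rw [hv, Nat.mul_comm]
    exact Nat.lt_mul_of_div_lt (Nat.lt_succ_self _) hA
  have h3 := st1 (A := A) h1
  omega

theorem nq_F (p : Site) {a b α β ρ θ κ G φ : ℝ} (hα : 0 < α) (ha0 : 0 < a) (hb0 : 0 < b)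
    (ha1 : α ^ 2 ≤ a) (hb2 : b ≤ β ^ 2) (hG0 : 0 < G) (hφ : 0 < φ)
    (hfl : (2 * φ) ^ 2 * β ^ 2 * (G + 1) ≤ α ^ 2 / 2) (hθ0 : 0 < θ) (hρθ : ρ = 8 * θ)
    (hρG : ρ * G = κ) (hθ1 : θ ≤ 1) (x : Site)
    (hx : |(fdet p x : ℝ)| < 2 * φ * |(gdot p x : ℝ)|) :
    Nq p (a * (1 - ρ)) (b * (1 + κ)) x ≤ (1 - θ) * Nq p a b x := by
  have hρ0 : 0 < ρ := by linarith
  have hκ : 0 < κ := by rw [← hρG]; exact mul_pos hρ0 hG0
  refine nq_le p (by linarith) x ?_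
  have h1 : (fdet p x : ℝ) ^ 2 ≤ (2 * φ) ^ 2 * (gdot p x : ℝ) ^ 2 := by
    rw [← sq_abs (fdet p x : ℝ), ← sq_abs (gdot p x : ℝ), ← mul_pow]
    exact pow_le_pow_left₀ (abs_nonneg _) hx.le 2
  obtain ⟨f2, hf2⟩ : ∃ f2 : ℝ, f2 = (fdet p x : ℝ) ^ 2 := ⟨_, rfl⟩
  obtain ⟨g2, hg2⟩ : ∃ g2 : ℝ, g2 = (gdot p x : ℝ) ^ 2 := ⟨_, rfl⟩
  have hf0 : 0 ≤ f2 := by rw [hf2]; exact sq_nonneg _
  have hg0 : 0 ≤ g2 := by rw [hg2]; exact sq_nonneg _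
  rw [← hf2, ← hg2] at h1
  rw [← hf2, ← hg2]
  have h2 : b * (κ + 2 * θ) * f2 ≤ β ^ 2 * (κ + 2 * θ) * ((2 * φ) ^ 2 * g2) := by
    apply mul_le_mul (mul_le_mul_of_nonneg_right hb2 (by linarith)) h1 hf0 (by positivity)
  have h3 : κ + 2 * θ = ρ * (G + 1 / 4) := by rw [← hρG, hρθ]; ring
  have h4 : β ^ 2 * (κ + 2 * θ) * ((2 * φ) ^ 2 * g2) ≤ ρ * g2 * (α ^ 2 / 2) := by
    rw [h3]
    have h5 : (2 * φ) ^ 2 * β ^ 2 * (G + 1 / 4) ≤ α ^ 2 / 2 := by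
      have h6 : (2 * φ) ^ 2 * β ^ 2 * (G + 1 / 4) ≤ (2 * φ) ^ 2 * β ^ 2 * (G + 1) :=
        mul_le_mul_of_nonneg_left (by linarith) (by positivity)
      linarith
    have h6 := mul_le_mul_of_nonneg_left h5 (by positivity : 0 ≤ ρ * g2)
    linarith
  have h7 : ρ * g2 * (α ^ 2 / 2) ≤ a * (ρ - 2 * θ) * g2 := by
    rw [hρθ]
    have h8 : 8 * θ * g2 * (α ^ 2 / 2) ≤ 8 * θ * g2 * (a / 2) :=
      mul_le_mul_of_nonneg_left (by linarith) (by positivity)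
    have h9 : 0 ≤ a * θ * g2 := by positivity
    linarith
  have h8 : (1 - 2 * θ) * (a * g2 + b * f2) ≤ (1 - θ) ^ 2 * (a * g2 + b * f2) := by
    exact mul_le_mul_of_nonneg_right (st2 θ) (by positivity)
  linarith

theorem nq_S (p : Site) {a b ρ κ : ℝ} (ha0 : 0 < a) (hb0 : 0 < b) (hρ0 : 0 ≤ ρ) (hκ : 0 ≤ κ)
    (x : Site) : Nq p (a * (1 - ρ)) (b * (1 + κ)) x ≤ (1 + κ) * Nq p a b x := by
  refine nq_le p (by linarith) x ?_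
  have h1 : a * (1 - ρ) ≤ (1 + κ) ^ 2 * a := st3 ha0 hρ0 hκ
  have h2 : b * (1 + κ) ≤ (1 + κ) ^ 2 * b := st4 hb0 hκ
  have h3 := mul_le_mul_of_nonneg_right h1 (sq_nonneg (gdot p x : ℝ))
  have h4 := mul_le_mul_of_nonneg_right h2 (sq_nonneg (fdet p x : ℝ))
  linarith

theorem nq_E (p : Site) {a b ρ θ κ : ℝ} (ha0 : 0 < a) (hb0 : 0 < b) (hθ0 : 0 < θ)
    (hρθ : ρ = 8 * θ) (hρ1 : ρ ≤ 1) (hθκ : 8 * θ ≤ κ) (hκ2 : κ < 1 / 2) (x : Site) :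
    Nq p (a * (1 - 2 * ρ)) (b * (1 + κ / 2)) x ≤
      (1 - θ) * Nq p (a * (1 - ρ)) (b * (1 + κ)) x := by
  refine nq_le p (by linarith) x ?_
  have e1 : 1 - 2 * ρ ≤ (1 - θ) ^ 2 * (1 - ρ) := st9 hθ0 hρθ hρ1
  have e2 : 1 + κ / 2 ≤ (1 - θ) ^ 2 * (1 + κ) := st10 hθ0 hθκ hκ2
  have h1 := mul_le_mul_of_nonneg_left e1 ha0.le
  have h2 := mul_le_mul_of_nonneg_left e2 hb0.le
  have h3 := mul_le_mul_of_nonneg_right h1 (sq_nonneg (gdot p x : ℝ))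
  have h4 := mul_le_mul_of_nonneg_right h2 (sq_nonneg (fdet p x : ℝ))
  linarith

theorem pf_STEP (hB3 : B_B3) (hPAR : B_PAR) (hA : B_A) (hNQ : B_NQ) : B_STEP := by
  intro R J hJ ε p α β G φ δ M K' hp hα hαβ hG hφ hφ1 hδ hδ1 hfl hM hM10
  obtain ⟨κ, A', n, hκ, hκ2, hA8, hκA, hnA, hprob⟩ := hPAR α β δ G M K' hα hαβ hδ hδ1 hG
  refine ⟨κ, hκ, hκ2, fun a b ha1 ha2 hb1 hb2 hpB hHard => ?_⟩
  have hG0 : 0 < G := lt_of_lt_of_le one_pos hG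
  have hβ : 0 < β := lt_of_lt_of_le hα hαβ
  have ha0 : 0 < a := lt_of_lt_of_le (by positivity) ha1
  have hb0 : 0 < b := lt_of_lt_of_le (by positivity) hb1
  obtain ⟨ρ, hρ⟩ : ∃ ρ : ℝ, ρ = κ / G := ⟨_, rfl⟩
  obtain ⟨θ, hθ⟩ : ∃ θ : ℝ, θ = κ / (8 * G) := ⟨_, rfl⟩
  rw [← hρ]
  rw [← hθ] at hprob
  have hρθ : ρ = 8 * θ := by rw [hρ, hθ]; field_simp
  have hρ0 : 0 < ρ := by rw [hρ]; exact div_pos hκ hG0
  have hθ0 : 0 < θ := by linarith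
  have hρκ : ρ ≤ κ := by rw [hρ]; exact div_le_self hκ.le hG
  have hρG : ρ * G = κ := by rw [hρ]; field_simp
  have hA'0 : (8 : ℝ) ≤ A' := by exact_mod_cast hA8
  have hβα : 1 ≤ β / α := by rw [le_div_iff₀ hα]; linarith
  have hβα0 : 0 < β / α := by positivity
  obtain ⟨A, hAl⟩ := exists_nat_ge (β / α / θ + 8)
  have hA0 : (8 : ℝ) ≤ A := by
    have : 0 < β / α / θ := by positivity
    linarith
  have hA8' : 8 ≤ A := by exact_mod_cast hA0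
  have hAθ : β / α ≤ A * A' * θ := by
    have h1 : β / α / θ ≤ A := by linarith
    rw [div_le_iff₀ hθ0] at h1
    have h2 : (A : ℝ) * θ * 1 ≤ A * θ * A' := by
      apply mul_le_mul_of_nonneg_left (by linarith) (by positivity)
    linarith
  have hAκ : β / α ≤ A * A' * κ := by
    have h2 : (A : ℝ) * A' * θ ≤ A * A' * κ :=
      mul_le_mul_of_nonneg_left (by linarith) (by positivity)
    linarith
  obtain ⟨w₀, hw₀⟩ := hpB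
  obtain ⟨T, hT⟩ : ∃ T : ℝ, T = 1 / 2 * (θ / (10 ^ 6 * (β / α))) ^ 4 := ⟨_, rfl⟩
  rw [← hT] at hprob
  have hT0 : 0 < T := by rw [hT]; positivity
  obtain ⟨v₀, hv₀⟩ := exists_nat_ge ((40 * (A : ℝ) * A') ^ 2 / T)
  obtain ⟨u, hu, hHu⟩ := hHard (A * (w₀ + (200 * R + 200) + v₀))
  obtain ⟨v, hv⟩ : ∃ v : ℕ, v = u / A := ⟨_, rfl⟩
  have hApos : 0 < A := by omega
  have hv1 : w₀ + (200 * R + 200) + v₀ ≤ v := by
    rw [hv, Nat.le_div_iff_mul_le hApos, Nat.mul_comm]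
    exact hu
  have hAv : A * v ≤ u := by rw [hv]; exact Nat.mul_div_le u A
  have hAv2 : u ≤ 2 * A * v := st11 hApos hv (by omega)
  have hu200 : 200 * R + 200 ≤ v := by omega
  -- the two comparisons
  have hF := nq_F p hα ha0 hb0 ha1 hb2 hG0 hφ hfl hθ0 hρθ hρG (by linarith)
  have hS := nq_S p ha0 hb0 hρ0.le hκ.le
  have hb3 := hB3 R J hJ ε p a b (a * (1 - ρ)) (b * (1 + κ)) α β θ κ φ δ A A' M K' n u v hp hα
    hαβ ha1 ha2 hb1 hb2 (mul_nonneg ha0.le (by linarith)) (mul_nonneg hb0.le (by linarith)) hθ0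
    (by linarith) hκ (by linarith) hφ hφ1 hδ hδ1 hF hS hA8' hAθ hAκ hκA hM hM10 hnA hAv hAv2
    hu200 hHu
  have hpv : pB R J ε (Nq p a b) v ≤ ((v : ℝ) ^ 20)⁻¹ := hw₀ v (by omega)
  have hv0 : (1 : ℝ) ≤ v := by
    have : 1 ≤ v := by omega
    exact_mod_cast this
  have hvv : (v₀ : ℝ) ≤ v := by
    have : v₀ ≤ v := by omega
    exact_mod_cast this
  have hmain : (40 * (A : ℝ) * A') ^ 2 * pB R J ε (Nq p a b) v ≤ T := by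
    have h1 : (40 * (A : ℝ) * A') ^ 2 * pB R J ε (Nq p a b) v ≤
        (40 * (A : ℝ) * A') ^ 2 * ((v : ℝ) ^ 20)⁻¹ :=
      mul_le_mul_of_nonneg_left hpv (by positivity)
    refine h1.trans ?_
    rw [← div_eq_mul_inv, div_le_iff₀ (by positivity)]
    have h2 : (40 * (A : ℝ) * A') ^ 2 / T ≤ v := hv₀.trans hvv
    rw [div_le_iff₀ hT0] at h2
    have h3 : (v : ℝ) ≤ (v : ℝ) ^ 20 := le_self_pow₀ hv0 (by norm_num)
    have h4 := mul_le_mul_of_nonneg_left h3 hT0.le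
    linarith
  have hpA : pB R J ε (Nq p (a * (1 - ρ)) (b * (1 + κ))) (A' * u) ≤
      (θ / (10 ^ 5 * (2 * β / (α / 2)))) ^ 4 := by
    have h1 : pB R J ε (Nq p (a * (1 - ρ)) (b * (1 + κ))) (A' * u) ≤
        (θ / (10 ^ 6 * (β / α))) ^ 4 := by
      have h2 : T + T = (θ / (10 ^ 6 * (β / α))) ^ 4 := by rw [hT]; ring
      rw [← h2]
      linarith
    refine h1.trans ?_
    refine pow_le_pow_left₀ (by positivity) ?_ 4
    refine div_le_div_of_nonneg_left hθ0.le (by positivity) ?_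
    have h3 : 2 * β / (α / 2) = 4 * (β / α) := by field_simp; ring
    rw [h3]
    linarith
  have hN := (hNQ p (a * (1 - ρ)) (b * (1 + κ)) (α / 2) (2 * β) hp (by linarith) (by linarith)
    (st5 ha0 ha1 (by linarith)) (st6 ha0 ha2 hρ0.le) (st7 hb0 hb1 hκ.le)
    (st8 hb0 hb2 (by linarith))).1
  have huv : v ≤ A' * u := by
    have h1 : v ≤ A * v := Nat.le_mul_of_pos_left v hApos
    have h2 : u ≤ A' * u := Nat.le_mul_of_pos_left u (by omega)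
    omega
  obtain ⟨w₁, hw₁⟩ := hA R J hJ ε (Nq p (a * (1 - ρ)) (b * (1 + κ))) (α / 2) (2 * β) θ
    (by linarith) (by linarith) hN hθ0 (by linarith) (A' * u) (by omega) hpA
  refine ⟨w₁, fun w hw => le_trans (pB_mono R J ε (fun x => ?_) w) (hw₁ w hw)⟩
  exact nq_E p ha0 hb0 hθ0 hρθ (by linarith) (by linarith) hκ2 x

end Pool.Agent.H80.RFZ
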