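import Pool.Agent.H98.RFC.Targets
import Pool.Agent.H98.RFZ.Targets

/-!
# AP: the inequality between the disagreement set and the surface tension
-/

set_option autoImplicit false

open MeasureTheory

namespace Pool.Agent.H80.RFZ

open Pool.Agent.H98.RFC Pool.Agent.H98.RFZ

/-! ### real analysis -/

theorem riem (Φ P N : ℝ → ℝ) (hP : Monotone P) (hN : Monotone N)
    (h : ∀ s s', s ≤ s' → 2 * (s' - s) * (P s - N s') ≤ Φ s' - Φ s) (t₁ t₂ : ℝ)
    (ht : t₁ ≤ t₂) : 2 * ∫ t in Set.Icc t₁ t₂, (P t - N t) ≤ Φ t₂ - Φ t₁ := by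
  rw [integral_Icc_eq_integral_Ioc, ← intervalIntegral.integral_of_le ht]
  have iP : ∀ a b : ℝ, IntervalIntegrable P volume a b := fun a b => hP.intervalIntegrable
  have iN : ∀ a b : ℝ, IntervalIntegrable N volume a b := fun a b => hN.intervalIntegrable
  have iD : ∀ a b : ℝ, IntervalIntegrable (fun t => P t - N t) volume a b :=
    fun a b => (iP a b).sub (iN a b)
  set G : ℝ → ℝ := fun s => Φ s - 2 * ∫ t in t₁..s, (P t - N t) with hG
  set Q : ℝ → ℝ := fun s => P s + N s with hQ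
  have hstep : ∀ s s', s ≤ s' → -(2 * (s' - s) * (Q s' - Q s)) ≤ G s' - G s := by
    intro s s' hs
    have h1 : (∫ t in t₁..s', (P t - N t)) - ∫ t in t₁..s, (P t - N t) =
        ∫ t in s..s', (P t - N t) := by
      rw [sub_eq_iff_eq_add']
      exact (intervalIntegral.integral_add_adjacent_intervals (iD _ _) (iD _ _)).symm
    have h2 : (∫ t in s..s', (P t - N t)) ≤ ∫ _ in s..s', (P s' - N s) := by
      refine intervalIntegral.integral_mono_on hs (iD _ _) intervalIntegrable_const ?_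
      intro t ht'
      exact sub_le_sub (hP ht'.2) (hN ht'.1)
    rw [intervalIntegral.integral_const, smul_eq_mul] at h2
    have h3 := h s s' hs
    have h4 : G s' - G s = (Φ s' - Φ s) - 2 * ((∫ t in t₁..s', (P t - N t)) -
        ∫ t in t₁..s, (P t - N t)) := by
      simp only [hG]; ring
    rw [h4, h1]
    have h5 : -(2 * (s' - s) * (Q s' - Q s)) = 2 * (s' - s) * (P s - N s') -
        2 * ((s' - s) * (P s' - N s)) := by
      simp only [hQ]; ring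
    rw [h5]
    linarith
  have hn : ∀ n : ℕ, 0 < n → -(2 * ((t₂ - t₁) / n) * (Q t₂ - Q t₁)) ≤ G t₂ - G t₁ := by
    intro n hn
    have hn' : (n : ℝ) ≠ 0 := by exact_mod_cast hn.ne'
    set δ : ℝ := (t₂ - t₁) / n with hδ
    have hδ0 : 0 ≤ δ := div_nonneg (by linarith) (Nat.cast_nonneg n)
    let u : ℕ → ℝ := fun k => t₁ + k * δ
    have hu0 : u 0 = t₁ := by simp [u]
    have hun : u n = t₂ := by
      show t₁ + (n : ℝ) * δ = t₂
      rw [hδ]; field_simp; ring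
    have h1 := Finset.sum_range_sub (fun k => G (u k)) n
    have h2 := Finset.sum_range_sub (fun k => Q (u k)) n
    simp only [hu0, hun] at h1 h2
    rw [← h1, ← h2, Finset.mul_sum, ← Finset.sum_neg_distrib]
    refine Finset.sum_le_sum fun k _ => ?_
    have h3 : u (k + 1) - u k = δ := by
      show t₁ + ((k + 1 : ℕ) : ℝ) * δ - (t₁ + (k : ℝ) * δ) = δ
      push_cast; ring
    have h4 := hstep (u k) (u (k + 1)) (by linarith)
    rw [h3] at h4
    exact h4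
  have hQ0 : 0 ≤ Q t₂ - Q t₁ := by
    have h1 := hP ht
    have h2 := hN ht
    simp only [hQ]
    linarith
  have hG0 : 0 ≤ G t₂ - G t₁ := by
    refine le_of_forall_pos_le_add fun ε hε => ?_
    obtain ⟨n, hn1⟩ := exists_nat_gt (2 * (t₂ - t₁) * (Q t₂ - Q t₁) / ε)
    have hA : 0 ≤ 2 * (t₂ - t₁) * (Q t₂ - Q t₁) :=
      mul_nonneg (mul_nonneg (by norm_num) (by linarith)) hQ0
    have hn0 : (0 : ℝ) < n := lt_of_le_of_lt (div_nonneg hA hε.le) hn1
    have h1 := hn n (by exact_mod_cast hn0)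
    have h2 : 2 * ((t₂ - t₁) / n) * (Q t₂ - Q t₁) ≤ ε := by
      have h3 : 2 * ((t₂ - t₁) / n) * (Q t₂ - Q t₁) = 2 * (t₂ - t₁) * (Q t₂ - Q t₁) / n := by
        ring
      rw [h3, div_le_iff₀ hn0]
      rw [div_lt_iff₀ hε] at hn1
      linarith
    linarith
  have h1 : G t₁ = Φ t₁ := by
    simp only [hG]
    rw [intervalIntegral.integral_same]; ring
  rw [h1] at hG0
  simp only [hG] at hG0
  linarith

/-! ### energies -/

theorem shf_apply (V : Finset Site) (s : ℝ) (η : Site → ℝ) (x : Site) :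
    shf V s η x = η x + if x ∈ V then s else 0 := rfl

theorem en_shf (R : ℕ) (J h : Site → ℝ) {V Λ : Finset Site} (hV : V ⊆ Λ) (t : ℝ)
    (A : Set Site) :
    en R J (shf V t h) Λ A = en R J h Λ A - t * ∑ x ∈ V, sg A x := by
  unfold en
  have h1 : ∑ x ∈ Λ, shf V t h x * sg A x = ∑ x ∈ Λ, h x * sg A x + t * ∑ x ∈ V, sg A x := by
    have h2 : ∀ x ∈ Λ, shf V t h x * sg A x = h x * sg A x + if x ∈ V then t * sg A x else 0 := by
      intro x _
      rw [shf_apply]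
      split_ifs <;> ring
    rw [Finset.sum_congr rfl h2, Finset.sum_add_distrib, ← Finset.sum_filter, Finset.mul_sum]
    congr 2
    ext x
    simp only [Finset.mem_filter]
    exact ⟨fun h => h.2, fun h => ⟨hV h, h⟩⟩
  rw [h1]; ring

theorem sg_mono {A A' : Set Site} (h : A ⊆ A') (x : Site) : sg A x ≤ sg A' x := by
  unfold sg
  split_ifs with h1 h2 h2
  · exact le_refl _
  · exact absurd (h h1) h2
  · norm_num
  · exact le_refl _

/-- submodularity for two fields -/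
theorem two (hSUB : T_SUB) (R : ℕ) (J : Site → ℝ) (hJ : IsCoupling R J) (h : Site → ℝ)
    {V Λ : Finset Site} (hV : V ⊆ Λ) {t t' : ℝ} (ht : t ≤ t') (A A' : Set Site) :
    en R J (shf V t h) Λ (A ∩ A') + en R J (shf V t' h) Λ (A ∪ A') ≤
      en R J (shf V t h) Λ A + en R J (shf V t' h) Λ A' := by
  have h1 := hSUB R J hJ h Λ A A'
  have h2 := hSUB R J hJ (shf V t h) Λ A A'
  simp only [en_shf R J h hV] at h2 ⊢
  have h3 : ∑ x ∈ V, sg A' x ≤ ∑ x ∈ V, sg (A ∪ A') x :=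
    Finset.sum_le_sum fun x _ => sg_mono Set.subset_union_right x
  have h4 : 0 ≤ (t' - t) * (∑ x ∈ V, sg (A ∪ A') x - ∑ x ∈ V, sg A' x) :=
    mul_nonneg (by linarith) (by linarith)
  nlinarith

theorem mem_gs {R : ℕ} {J h : Site → ℝ} {Λ : Finset Site} {B : Set Site} {S : Finset Site} :
    S ∈ gs R J h Λ B ↔ S ⊆ Λ ∧ ∀ S' ⊆ Λ, en R J h Λ (↑S ∪ B) ≤ en R J h Λ (↑S' ∪ B) := by
  unfold gs
  rw [Finset.mem_filter, Finset.mem_powerset]
  simp only [Finset.mem_powerset]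

theorem em_le (R : ℕ) (J h : Site → ℝ) (Λ V : Finset Site) (B : Set Site) {S : Finset Site}
    (hS : S ⊆ Λ \ V) : em R J h Λ V B ≤ en R J h Λ (↑S ∪ B) := by
  unfold Pool.Agent.H98.RFZ.em
  exact Finset.inf'_le _ (Finset.mem_powerset.2 hS)

theorem em_ex (R : ℕ) (J h : Site → ℝ) (Λ V : Finset Site) (B : Set Site) :
    ∃ S ⊆ Λ \ V, em R J h Λ V B = en R J h Λ (↑S ∪ B) := by
  unfold Pool.Agent.H98.RFZ.em
  obtain ⟨S, hS, h1⟩ := Finset.exists_mem_eq_inf'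
    (s := (Λ \ V).powerset) ⟨∅, Finset.empty_mem_powerset _⟩
    (fun S : Finset Site => en R J h Λ (↑S ∪ B))
  exact ⟨S, Finset.mem_powerset.1 hS, h1⟩

theorem em_gs (R : ℕ) (J h : Site → ℝ) (Λ : Finset Site) (B : Set Site) {S : Finset Site}
    (hS : S ∈ gs R J h Λ B) : em R J h Λ ∅ B = en R J h Λ (↑S ∪ B) := by
  rw [mem_gs] at hS
  apply le_antisymm
  · exact em_le R J h Λ ∅ B (by rw [Finset.sdiff_empty]; exact hS.1)
  · obtain ⟨S', hS', h1⟩ := em_ex R J h Λ ∅ B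
    rw [h1]
    exact hS.2 S' (by rw [Finset.sdiff_empty] at hS'; exact hS')

theorem un_un (S S' : Finset Site) (B : Set Site) :
    ((↑S ∪ B) ∪ (↑S' ∪ B) : Set Site) = ↑(S ∪ S') ∪ B := by
  rw [Finset.coe_union]
  ext x
  simp only [Set.mem_union]
  tauto

theorem in_in (S S' : Finset Site) (B : Set Site) :
    ((↑S ∪ B) ∩ (↑S' ∪ B) : Set Site) = ↑(S ∩ S') ∪ B := by
  rw [Finset.coe_inter, Set.inter_union_distrib_right]

theorem gp_mono (hSUB : T_SUB) (hLAT : Z_LAT) (R : ℕ) (J : Site → ℝ) (hJ : IsCoupling R J)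
    (h : Site → ℝ) {V Λ : Finset Site} (hV : V ⊆ Λ) {t t' : ℝ} (ht : t ≤ t') (B : Set Site)
    (hB : Disjoint B (↑Λ : Set Site)) :
    gp R J (shf V t h) Λ B ⊆ gp R J (shf V t' h) Λ B := by
  obtain ⟨_, h1, _, _⟩ := hLAT R J hJ (shf V t h) Λ B hB
  obtain ⟨_, h1', _, h2'⟩ := hLAT R J hJ (shf V t' h) Λ B hB
  have h3 := two hSUB R J hJ h hV ht (↑(gp R J (shf V t h) Λ B) ∪ B)
    (↑(gp R J (shf V t' h) Λ B) ∪ B)
  rw [un_un, in_in] at h3
  have h1a := mem_gs.1 h1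
  have h1b := mem_gs.1 h1'
  have h4 := h1a.2 (gp R J (shf V t h) Λ B ∩ gp R J (shf V t' h) Λ B)
    (Finset.inter_subset_left.trans h1a.1)
  have h5 : gp R J (shf V t h) Λ B ∪ gp R J (shf V t' h) Λ B ∈ gs R J (shf V t' h) Λ B := by
    rw [mem_gs]
    refine ⟨Finset.union_subset h1a.1 h1b.1, fun S' hS' => ?_⟩
    have h6 := h1b.2 S' hS'
    linarith
  exact Finset.subset_union_left.trans (h2' _ h5).2

theorem gn_mono (hSUB : T_SUB) (hLAT : Z_LAT) (R : ℕ) (J : Site → ℝ) (hJ : IsCoupling R J)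
    (h : Site → ℝ) {V Λ : Finset Site} (hV : V ⊆ Λ) {t t' : ℝ} (ht : t ≤ t') (B : Set Site)
    (hB : Disjoint B (↑Λ : Set Site)) :
    gn R J (shf V t h) Λ B ⊆ gn R J (shf V t' h) Λ B := by
  obtain ⟨_, _, h1, h2⟩ := hLAT R J hJ (shf V t h) Λ B hB
  obtain ⟨_, _, h1', _⟩ := hLAT R J hJ (shf V t' h) Λ B hB
  have h3 := two hSUB R J hJ h hV ht (↑(gn R J (shf V t h) Λ B) ∪ B)
    (↑(gn R J (shf V t' h) Λ B) ∪ B)
  rw [un_un, in_in] at h3
  have h1a := mem_gs.1 h1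
  have h1b := mem_gs.1 h1'
  have h4 := h1b.2 (gn R J (shf V t h) Λ B ∪ gn R J (shf V t' h) Λ B)
    (Finset.union_subset h1a.1 h1b.1)
  have h5 : gn R J (shf V t h) Λ B ∩ gn R J (shf V t' h) Λ B ∈ gs R J (shf V t h) Λ B := by
    rw [mem_gs]
    refine ⟨Finset.inter_subset_left.trans h1a.1, fun S' hS' => ?_⟩
    have h6 := h1a.2 S' hS'
    linarith
  exact (h2 _ h5).1.trans Finset.inter_subset_right

theorem sum_sg {V : Finset Site} {B : Set Site} (hB : Disjoint B (↑V : Set Site))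
    (S : Finset Site) :
    ∑ x ∈ V, sg (↑S ∪ B) x = 2 * ((S ∩ V).card : ℝ) - (V.card : ℝ) := by
  classical
  have h1 : ∀ x ∈ V, sg (↑S ∪ B) x = 2 * (if x ∈ S then (1 : ℝ) else 0) - 1 := by
    intro x hx
    have hxB : x ∉ B := fun h => Set.disjoint_left.1 hB h (Finset.mem_coe.2 hx)
    unfold sg
    by_cases hxS : x ∈ S
    · have h2 : x ∈ (↑S ∪ B : Set Site) := Or.inl (Finset.mem_coe.2 hxS)
      rw [if_pos h2, if_pos hxS]; norm_num
    · have h2 : x ∉ (↑S ∪ B : Set Site) := by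
        rintro (h | h)
        · exact hxS (Finset.mem_coe.1 h)
        · exact hxB h
      rw [if_neg h2, if_neg hxS]
      norm_num
  rw [Finset.sum_congr rfl h1, Finset.sum_sub_distrib, ← Finset.mul_sum, Finset.sum_ite_mem,
    Finset.sum_const, Finset.sum_const, nsmul_eq_mul, nsmul_eq_mul, mul_one, mul_one,
    Finset.inter_comm]

theorem sum_sg_pos {V : Finset Site} {A : Set Site} (hA : (↑V : Set Site) ⊆ A) :
    ∑ x ∈ V, sg A x = (V.card : ℝ) := by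
  have h1 : ∀ x ∈ V, sg A x = 1 := fun x hx => if_pos (hA (Finset.mem_coe.2 hx))
  rw [Finset.sum_congr rfl h1, Finset.sum_const, nsmul_eq_mul, mul_one]

theorem em_pos (R : ℕ) (J h : Site → ℝ) {V Λ : Finset Site} (hV : V ⊆ Λ) (t : ℝ)
    {B : Set Site} (hB : (↑V : Set Site) ⊆ B) :
    em R J (shf V t h) Λ V B = em R J h Λ V B - t * (V.card : ℝ) := by
  have key : ∀ S : Finset Site, en R J (shf V t h) Λ (↑S ∪ B) =
      en R J h Λ (↑S ∪ B) - t * (V.card : ℝ) := by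
    intro S
    rw [en_shf R J h hV, sum_sg_pos (hB.trans Set.subset_union_right)]
  apply le_antisymm
  · obtain ⟨S, hS, h1⟩ := em_ex R J h Λ V B
    rw [h1, ← key]
    exact em_le _ _ _ _ _ _ hS
  · obtain ⟨S, hS, h1⟩ := em_ex R J (shf V t h) Λ V B
    rw [h1, key]
    have h2 := em_le R J h Λ V B hS
    linarith

theorem em_neg (R : ℕ) (J h : Site → ℝ) {V Λ : Finset Site} (hV : V ⊆ Λ) (t : ℝ)
    {B : Set Site} (hB : Disjoint B (↑V : Set Site)) :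
    em R J (shf V t h) Λ V B = em R J h Λ V B + t * (V.card : ℝ) := by
  have key : ∀ S : Finset Site, S ⊆ Λ \ V → en R J (shf V t h) Λ (↑S ∪ B) =
      en R J h Λ (↑S ∪ B) + t * (V.card : ℝ) := by
    intro S hS
    have h1 : S ∩ V = ∅ := by
      ext x
      simp only [Finset.mem_inter, Finset.notMem_empty, iff_false, not_and]
      exact fun hx => (Finset.mem_sdiff.1 (hS hx)).2
    rw [en_shf R J h hV, sum_sg hB, h1, Finset.card_empty]
    push_cast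
    ring
  apply le_antisymm
  · obtain ⟨S, hS, h1⟩ := em_ex R J h Λ V B
    rw [h1, ← key S hS]
    exact em_le _ _ _ _ _ _ hS
  · obtain ⟨S, hS, h1⟩ := em_ex R J (shf V t h) Λ V B
    rw [h1, key S hS]
    have h2 := em_le R J h Λ V B hS
    linarith

/-- upper bound for the difference of the ground state energies -/
theorem up (hSUB : T_SUB) (R : ℕ) (J : Site → ℝ) (hJ : IsCoupling R J) (h : Site → ℝ)
    {V Λ : Finset Site} (hV : V ⊆ Λ) :
    em R J h Λ ∅ ∅ - em R J h Λ ∅ (↑Λ)ᶜ ≤ em R J h Λ V ↑V - em R J h Λ V ((↑Λ)ᶜ ∪ ↑V) := by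
  obtain ⟨S, hS, h1⟩ := em_ex R J h Λ V ↑V
  obtain ⟨T, hT, h2⟩ := em_ex R J h Λ ∅ (↑Λ)ᶜ
  rw [Finset.sdiff_empty] at hT
  have h3 := hSUB R J hJ h Λ (↑S ∪ ↑V) (↑T ∪ (↑Λ)ᶜ)
  have hSL : S ⊆ Λ := hS.trans Finset.sdiff_subset
  have h4 : ((↑S ∪ ↑V) ∩ (↑T ∪ (↑Λ)ᶜ) : Set Site) = ↑((S ∪ V) ∩ T) ∪ ∅ := by
    ext x
    simp only [Set.mem_union, Set.mem_inter_iff, Set.mem_compl_iff, Finset.mem_coe,
      Finset.mem_inter, Finset.mem_union, Set.mem_empty_iff_false, or_false]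
    constructor
    · rintro ⟨h5, h6 | h6⟩
      · exact ⟨h5, h6⟩
      · rcases h5 with h5 | h5
        · exact absurd (hSL h5) h6
        · exact absurd (hV h5) h6
    · rintro ⟨h5, h6⟩
      exact ⟨h5, Or.inl h6⟩
  have h5 : ((↑S ∪ ↑V) ∪ (↑T ∪ (↑Λ)ᶜ) : Set Site) = ↑((S ∪ T) \ V) ∪ ((↑Λ)ᶜ ∪ ↑V) := by
    ext x
    simp only [Set.mem_union, Set.mem_compl_iff, Finset.mem_coe,
      Finset.mem_sdiff, Finset.mem_union]
    tauto
  rw [h4, h5] at h3
  have h6 : em R J h Λ ∅ ∅ ≤ _ := em_le R J h Λ ∅ ∅ (S := (S ∪ V) ∩ T)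
    (by rw [Finset.sdiff_empty]; exact Finset.inter_subset_right.trans hT)
  have h7 : em R J h Λ V ((↑Λ)ᶜ ∪ ↑V) ≤ _ := em_le R J h Λ V ((↑Λ)ᶜ ∪ ↑V) (S := (S ∪ T) \ V)
    (Finset.sdiff_subset_sdiff (Finset.union_subset hSL hT) le_rfl)
  rw [h1, h2]
  linarith

/-- lower bound for the difference of the ground state energies -/
theorem lo (hSUB : T_SUB) (R : ℕ) (J : Site → ℝ) (hJ : IsCoupling R J) (h : Site → ℝ)
    {V Λ : Finset Site} :
    em R J h Λ V ∅ - em R J h Λ V (↑Λ)ᶜ ≤ em R J h Λ ∅ ∅ - em R J h Λ ∅ (↑Λ)ᶜ := by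
  obtain ⟨S, hS, h1⟩ := em_ex R J h Λ V (↑Λ)ᶜ
  obtain ⟨T, hT, h2⟩ := em_ex R J h Λ ∅ ∅
  rw [Finset.sdiff_empty] at hT
  have h3 := hSUB R J hJ h Λ (↑S ∪ (↑Λ)ᶜ) (↑T ∪ ∅)
  have hSL : S ⊆ Λ := hS.trans Finset.sdiff_subset
  have h4 : ((↑S ∪ (↑Λ)ᶜ) ∩ (↑T ∪ ∅) : Set Site) = ↑(S ∩ T) ∪ ∅ := by
    ext x
    simp only [Set.mem_union, Set.mem_inter_iff, Set.mem_compl_iff, Finset.mem_coe,
      Finset.mem_inter, Set.mem_empty_iff_false, or_false]
    constructor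
    · rintro ⟨h5 | h5, h6⟩
      · exact ⟨h5, h6⟩
      · exact absurd (hT h6) h5
    · rintro ⟨h5, h6⟩
      exact ⟨Or.inl h5, h6⟩
  have h5 : ((↑S ∪ (↑Λ)ᶜ) ∪ (↑T ∪ ∅) : Set Site) = ↑(S ∪ T) ∪ (↑Λ)ᶜ := by
    ext x
    simp only [Set.mem_union, Set.mem_compl_iff, Finset.mem_coe, Finset.mem_union,
      Set.mem_empty_iff_false]
    tauto
  rw [h4, h5] at h3
  have h6 : em R J h Λ V ∅ ≤ _ := em_le R J h Λ V ∅ (S := S ∩ T)
    (Finset.inter_subset_left.trans hS)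
  have h7 : em R J h Λ ∅ (↑Λ)ᶜ ≤ _ := em_le R J h Λ ∅ (↑Λ)ᶜ (S := S ∪ T)
    (by rw [Finset.sdiff_empty]; exact Finset.union_subset hSL hT)
  rw [h1, h2]
  linarith

theorem card_ds (hLAT : Z_LAT) (hMB : Z_MB) (R : ℕ) (J : Site → ℝ) (hJ : IsCoupling R J)
    (h : Site → ℝ) (V Λ : Finset Site) :
    ((Ds R J h Λ ∩ V).card : ℝ) = ((gp R J h Λ (↑Λ)ᶜ ∩ V).card : ℝ) -
      ((gn R J h Λ ∅ ∩ V).card : ℝ) := by
  have hc : Disjoint ((↑Λ)ᶜ : Set Site) (↑Λ : Set Site) := disjoint_compl_left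
  have h1 := (hMB R J hJ h Λ ∅ (↑Λ)ᶜ (Set.empty_subset _) (Set.empty_disjoint _) hc).1
  have h2 := hLAT R J hJ h Λ ∅ (Set.empty_disjoint _)
  have h3 : gn R J h Λ ∅ ⊆ gp R J h Λ (↑Λ)ᶜ := ((h2.2.2.2 _ h2.2.1).1).trans h1
  have h4 : Ds R J h Λ ∩ V = (gp R J h Λ (↑Λ)ᶜ ∩ V) \ (gn R J h Λ ∅ ∩ V) := by
    unfold Ds
    ext x
    simp only [Finset.mem_inter, Finset.mem_sdiff]
    tauto
  have h5 : gn R J h Λ ∅ ∩ V ⊆ gp R J h Λ (↑Λ)ᶜ ∩ V := Finset.inter_subset_inter_right h3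
  rw [h4, Finset.card_sdiff_of_subset h5, Nat.cast_sub (Finset.card_le_card h5)]

theorem pf_AP (hSUB : T_SUB) (hLAT : Z_LAT) (hMB : Z_MB) : Z_AP := by
  intro R J hJ h V Λ hV t₁ t₂ ht
  have hc : Disjoint ((↑Λ)ᶜ : Set Site) (↑Λ : Set Site) := disjoint_compl_left
  have hcV : Disjoint ((↑Λ)ᶜ : Set Site) (↑V : Set Site) :=
    hc.mono_right (Finset.coe_subset.2 hV)
  set Φ : ℝ → ℝ := fun t => em R J (shf V t h) Λ ∅ ∅ - em R J (shf V t h) Λ ∅ (↑Λ)ᶜ with hΦ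
  set P : ℝ → ℝ := fun t => ((gp R J (shf V t h) Λ (↑Λ)ᶜ ∩ V).card : ℝ) with hP
  set N : ℝ → ℝ := fun t => ((gn R J (shf V t h) Λ ∅ ∩ V).card : ℝ) with hN
  have hPm : Monotone P := by
    intro s s' hs
    exact Nat.cast_le.2 (Finset.card_le_card
      (Finset.inter_subset_inter_right (gp_mono hSUB hLAT R J hJ h hV hs _ hc)))
  have hNm : Monotone N := by
    intro s s' hs
    exact Nat.cast_le.2 (Finset.card_le_card
      (Finset.inter_subset_inter_right (gn_mono hSUB hLAT R J hJ h hV hs _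
        (Set.empty_disjoint _))))
  have hstep : ∀ s s', s ≤ s' → 2 * (s' - s) * (P s - N s') ≤ Φ s' - Φ s := by
    intro s s' hs
    have g1 := (hLAT R J hJ (shf V s' h) Λ ∅ (Set.empty_disjoint _)).2.2.1
    have g2 := (hLAT R J hJ (shf V s h) Λ (↑Λ)ᶜ hc).2.1
    have e1 := em_gs R J (shf V s' h) Λ ∅ g1
    have e2 := em_gs R J (shf V s h) Λ (↑Λ)ᶜ g2
    have l1 := em_le R J (shf V s h) Λ ∅ ∅ (S := gn R J (shf V s' h) Λ ∅)
      (by rw [Finset.sdiff_empty]; exact (mem_gs.1 g1).1)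
    have l2 := em_le R J (shf V s' h) Λ ∅ (↑Λ)ᶜ (S := gp R J (shf V s h) Λ (↑Λ)ᶜ)
      (by rw [Finset.sdiff_empty]; exact (mem_gs.1 g2).1)
    rw [en_shf R J h hV, sum_sg (Set.empty_disjoint _)] at e1 l1
    rw [en_shf R J h hV, sum_sg hcV] at e2 l2
    simp only [hΦ, hP, hN]
    nlinarith
  have h1 := riem Φ P N hPm hNm hstep t₁ t₂ ht
  have h2 : ∀ t, ((Ds R J (shf V t h) Λ ∩ V).card : ℝ) = P t - N t := fun t =>
    card_ds hLAT hMB R J hJ (shf V t h) V Λ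
  have h3 : (∫ t in Set.Icc t₁ t₂, ((Ds R J (shf V t h) Λ ∩ V).card : ℝ)) =
      ∫ t in Set.Icc t₁ t₂, (P t - N t) := by
    simp only [h2]
  rw [h3]
  refine h1.trans ?_
  have h4 := up hSUB R J hJ (shf V t₂ h) hV
  have h5 := lo hSUB R J hJ (shf V t₁ h) (V := V) (Λ := Λ)
  rw [em_pos R J h hV t₂ (subset_refl _), em_pos R J h hV t₂ Set.subset_union_right] at h4
  rw [em_neg R J h hV t₁ (Set.empty_disjoint _), em_neg R J h hV t₁ hcV] at h5
  unfold ten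
  simp only [hΦ]
  linarith

end Pool.Agent.H80.RFZ
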