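import Pool.Agent.H80.RFZ.A1

/-!
# SPP: long transversal paths exclude short paths in the annulus
-/

set_option autoImplicit false

open MeasureTheory ProbabilityTheory

namespace Pool.Agent.H80.RFZ

open Pool.Agent.H98.RFC Pool.Agent.H98.RFZ

/-! ### determinant and scalar product -/

theorem fg_sq (p x : Site) :
    (fdet p x : ℝ) ^ 2 + (gdot p x : ℝ) ^ 2 = (nrm p * nrm x) ^ 2 := by
  rw [mul_pow, nrm_sq, nrm_sq]
  unfold fdet gdot nsq
  push_cast
  ring

theorem f_le (p x : Site) : |(fdet p x : ℝ)| ≤ nrm p * nrm x := by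
  have h := fg_sq p x
  exact abs_le_of_sq_le_sq (by nlinarith [sq_nonneg (gdot p x : ℝ)])
    (mul_nonneg (nrm_nonneg p) (nrm_nonneg x))

theorem g_le (p x : Site) : |(gdot p x : ℝ)| ≤ nrm p * nrm x := by
  have h := fg_sq p x
  exact abs_le_of_sq_le_sq (by nlinarith [sq_nonneg (fdet p x : ℝ)])
    (mul_nonneg (nrm_nonneg p) (nrm_nonneg x))

theorem le_fg (p x : Site) : nrm p * nrm x ≤ |(fdet p x : ℝ)| + |(gdot p x : ℝ)| := by
  have h := fg_sq p x
  refine le_of_sq_le_sq ?_ (by positivity)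
  rw [← h]
  have h1 := abs_nonneg (fdet p x : ℝ)
  have h2 := abs_nonneg (gdot p x : ℝ)
  nlinarith [sq_abs (fdet p x : ℝ), sq_abs (gdot p x : ℝ), mul_nonneg h1 h2]

theorem f_sub (p x y : Site) : (fdet p (x - y) : ℝ) = (fdet p x : ℝ) - (fdet p y : ℝ) := by
  unfold fdet
  simp only [Prod.fst_sub, Prod.snd_sub]
  push_cast
  ring

theorem g_sub (p x y : Site) : (gdot p (x - y) : ℝ) = (gdot p x : ℝ) - (gdot p y : ℝ) := by
  unfold gdot
  simp only [Prod.fst_sub, Prod.snd_sub]
  push_cast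
  ring

theorem f_add (p x y : Site) : (fdet p (x + y) : ℝ) = (fdet p x : ℝ) + (fdet p y : ℝ) := by
  unfold fdet
  simp only [Prod.fst_add, Prod.snd_add]
  push_cast
  ring

theorem nrm_pos {p : Site} (hp : p ≠ 0) : 0 < nrm p := by
  unfold nrm
  rw [Real.sqrt_pos]
  unfold nsq
  have h1 : p.1 ≠ 0 ∨ p.2 ≠ 0 := by
    by_contra h
    push Not at h
    exact hp (Prod.ext h.1 h.2)
  have h2 : 0 < p.1 ^ 2 + p.2 ^ 2 := by
    rcases h1 with h | h
    · have := sq_nonneg p.2
      have := pow_pos (abs_pos.2 h) 2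
      rw [sq_abs] at this
      linarith
    · have := sq_nonneg p.1
      have := pow_pos (abs_pos.2 h) 2
      rw [sq_abs] at this
      linarith
  exact_mod_cast h2

/-! ### pieces of paths in a general domain -/

theorem chain2 (hDM : Z_DM) {R : ℕ} {J : Site → ℝ} (hJ : IsCoupling R J) {h : Site → ℝ}
    {N : Site → ℝ} {β : ℝ} (hsub : ∀ x y, N (x + y) ≤ N x + N y) (hup : ∀ x, N x ≤ β * nrm x)
    (hβ : 0 ≤ β) {v : ℕ} (hv : 20 * R + 20 ≤ v) {Λ : Finset Site} {k : ℕ} {x : ℕ → Site}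
    (hp : IsPath J (Ds R J h Λ) k x) :
    ∀ n i : ℕ, i + n ≤ k → (∀ l, i ≤ l → l < i + n → Gd R J h N v (x l) ∧
      ∀ y : Site, nrm (x l - sm v y) ≤ 3 / 4 * v → eb (sm v y) (10 * v) ⊆ Λ) →
      N (x (i + n) - x i) ≤ n + β * v := by
  have hv' : 20 * (R : ℝ) + 20 ≤ v := by exact_mod_cast hv
  have hR0 : (0 : ℝ) ≤ R := Nat.cast_nonneg R
  intro n
  induction n using Nat.strong_induction_on with
  | _ n ih =>
    intro i hi hg
    classical
    by_cases hfar : ∃ m, m ≤ n ∧ (v : ℝ) ≤ nrm (x (i + m) - x i)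
    · have hm := Nat.find_spec hfar
      have hmin : ∀ m', m' < Nat.find hfar → nrm (x (i + m') - x i) < v := by
        intro m' hm'
        by_contra hc
        exact Nat.find_min hfar hm' ⟨hm'.le.trans hm.1, not_lt.1 hc⟩
      set m := Nat.find hfar with hmdef
      have hm0 : 0 < m := by
        rcases Nat.eq_zero_or_pos m with h0 | h0
        · exfalso
          have h1 := hm.2
          rw [h0, add_zero, sub_self, nrm_zero] at h1
          linarith
        · exact h0
      have hlast : nrm (x (i + m) - x i) ≤ 11 / 10 * v := by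
        have h1 := hmin (m - 1) (by omega)
        have h2 := nrm_tri (x (i + m)) (x (i + (m - 1))) (x i)
        have h3 : i + m = i + (m - 1) + 1 := by omega
        have h4 := nrm_J hJ (hp.2 (i + (m - 1)) (by omega))
        rw [← h3] at h4
        linarith
      have hall : ∀ l, l ≤ m → nrm (x (i + l) - x i) ≤ 11 / 10 * v := by
        intro l hl
        rcases Nat.lt_or_eq_of_le hl with h1 | h1
        · have h2 := hmin l h1
          linarith
        · rw [h1]; exact hlast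
      obtain ⟨y, hy⟩ := grid v (by omega) (x i)
      have hnb := (hg i le_rfl (by omega)).1 y hy
      have hsubs := (hg i le_rfl (by omega)).2 y hy
      have hnz : ∀ l, l ≤ m → nrm (x (i + l) - sm v y) ≤ 2 * v := by
        intro l hl
        have h1 := nrm_tri (x (i + l)) (x i) (sm v y)
        have h2 := hall l hl
        linarith
      have hpiece : N (x (i + m) - x i) ≤ m := by
        by_contra hc
        apply hnb
        refine ⟨m, fun l => x (i + l), ⟨fun l hl => ?_, fun l hl => ?_⟩, fun l hl => ?_, ?_, ?_, ?_⟩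
        · refine hDM R J hJ h _ _ hsubs (Finset.mem_inter.2 ⟨hp.1 (i + l) (by omega), ?_⟩)
          rw [mem_eb]
          have h1 := hnz l hl
          push_cast
          linarith
        · exact hp.2 (i + l) (by omega)
        · rw [mem_eb]
          have h1 := hnz l hl
          push_cast
          linarith
        · rw [mem_eb]
          have h1 := hnz 0 (by omega)
          push_cast
          exact h1
        · rw [le_nrm_iff]
          exact hm.2
        · exact not_le.1 hc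
      have hrest := ih (n - m) (by omega) (i + m) (by omega) (fun l h1 h2 =>
        hg l (by omega) (by omega))
      have h5 : i + m + (n - m) = i + n := by omega
      rw [h5, Nat.cast_sub hm.1] at hrest
      have h6 := hsub (x (i + n) - x (i + m)) (x (i + m) - x i)
      rw [sub_add_sub_cancel] at h6
      linarith
    · push Not at hfar
      have h1 := hfar n le_rfl
      have h2 := hup (x (i + n) - x i)
      have h3 : β * nrm (x (i + n) - x i) ≤ β * v := mul_le_mul_of_nonneg_left h1.le hβ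
      have h4 : (0 : ℝ) ≤ n := Nat.cast_nonneg n
      linarith

/-- a short path meets a bad cell -/
theorem sp_bad (hDM : Z_DM) (hRCT : P_RCT) {R : ℕ} {J : Site → ℝ} (hJ : IsCoupling R J)
    (h : Site → ℝ) {p : Site} (hp0 : p ≠ 0) {K l : ℝ} (hK : 1 ≤ K) (hl : 2 * K ≤ l) {w : ℝ}
    {v : ℕ} (hv : 20 * R + 20 ≤ v) (hvw : 100 * (v : ℝ) ≤ w) (hwv : w ≤ 200 * (v : ℝ))
    (hSP : SP R J h p K w) :
    ∃ y ∈ box ⌈1400 * K⌉₊, BadN R J h (fun x => l * |(fdet p x : ℝ)| / nrm p) v (sm v y) := by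
  obtain ⟨k, x, hp, hg, h0, hk3, hk⟩ := hSP
  have hv' : 20 * (R : ℝ) + 20 ≤ v := by exact_mod_cast hv
  have hR0 : (0 : ℝ) ≤ R := Nat.cast_nonneg R
  have hv0 : (0 : ℝ) < v := by linarith
  have hw0 : 0 < w := by linarith
  have hn := nrm_pos hp0
  have hwn : 0 < w * nrm p := mul_pos hw0 hn
  have hl0 : 0 < l := by linarith
  by_contra hcon
  push Not at hcon
  classical
  let A : Finset ℕ := (Finset.range (k + 1)).filter
    (fun i => |(fdet p (x i) : ℝ)| ≤ 2 * w * nrm p)
  have hA : A.Nonempty := ⟨0, Finset.mem_filter.2 ⟨Finset.mem_range.2 (by omega), h0⟩⟩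
  set i₀ := A.max' hA with hi₀
  have m0 := A.max'_mem hA
  rw [← hi₀] at m0
  have f0 := (Finset.mem_filter.1 m0).2
  have k0 : i₀ ≤ k := by
    have := Finset.mem_range.1 (Finset.mem_filter.1 m0).1
    omega
  have hnA : ∀ i, i₀ < i → i ≤ k → 2 * w * nrm p < |(fdet p (x i) : ℝ)| := by
    intro i h1 h2
    by_contra hc
    have h3 : i ∈ A := Finset.mem_filter.2 ⟨Finset.mem_range.2 (by omega), not_lt.1 hc⟩
    have := A.le_max' i h3
    omega
  let B : Finset ℕ := (Finset.range (k + 1)).filter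
    (fun i => i₀ ≤ i ∧ 3 * w * nrm p ≤ |(fdet p (x i) : ℝ)|)
  have hB : B.Nonempty := ⟨k, Finset.mem_filter.2 ⟨Finset.mem_range.2 (by omega), k0, hk3⟩⟩
  set i₁ := B.min' hB with hi₁
  have m1 := B.min'_mem hB
  rw [← hi₁] at m1
  have f1 := (Finset.mem_filter.1 m1).2
  have k1 : i₁ ≤ k := by
    have := Finset.mem_range.1 (Finset.mem_filter.1 m1).1
    omega
  have hnB : ∀ i, i₀ ≤ i → i < i₁ → |(fdet p (x i) : ℝ)| < 3 * w * nrm p := by
    intro i h1 h2
    by_contra hc
    have h3 : i ∈ B := Finset.mem_filter.2 ⟨Finset.mem_range.2 (by omega), h1, not_lt.1 hc⟩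
    have := B.min'_le i h3
    omega
  have h01 : i₀ < i₁ := by
    rcases Nat.lt_or_eq_of_le f1.1 with h1 | h1
    · exact h1
    · exfalso
      have h2 := f1.2
      rw [← h1] at h2
      linarith
  -- lower bound for the determinant on the piece
  have hlow : ∀ i, i₀ ≤ i → i < i₁ → (2 * w - 2 * R) * nrm p ≤ |(fdet p (x i) : ℝ)| := by
    intro i h1 h2
    rcases Nat.lt_or_eq_of_le h1 with h3 | h3
    · have h4 := hnA i h3 (by omega)
      linarith [mul_nonneg hR0 hn.le]
    · rw [← h3]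
      have h4 := hnA (i₀ + 1) (by omega) (by omega)
      have h5 := nrm_J hJ (hp.2 i₀ (by omega))
      have h6 := f_le p (x (i₀ + 1) - x i₀)
      rw [f_sub] at h6
      have h7 := abs_sub_abs_le_abs_sub (fdet p (x (i₀ + 1)) : ℝ) (fdet p (x i₀) : ℝ)
      have h8 : nrm p * nrm (x (i₀ + 1) - x i₀) ≤ nrm p * (2 * R) :=
        mul_le_mul_of_nonneg_left h5 hn.le
      linarith
  have hgood : ∀ i, i₀ ≤ i → i < i₁ →
      Gd R J h (fun x => l * |(fdet p x : ℝ)| / nrm p) v (x i) ∧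
      ∀ y : Site, nrm (x i - sm v y) ≤ 3 / 4 * v →
        eb (sm v y) (10 * v) ⊆ rect p K (4 * w) \ rect p K w := by
    intro i h1 h2
    have hfl := hlow i h1 h2
    have hfu := hnB i h1 h2
    have hgi := hg i (by omega)
    refine ⟨fun y hy hb => ?_, fun y hy b hb => ?_⟩
    · refine hcon y ?_ hb
      have h3 : nrm (x i) ≤ 6 * K * w := by
        have h4 := le_fg p (x i)
        have h5 : nrm p * nrm (x i) ≤ nrm p * (6 * K * w) := by
          linarith [mul_le_mul_of_nonneg_right hK hwn.le]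
        exact le_of_mul_le_mul_left h5 hn
      have h4 : nrm (sm v y) ≤ 7 * K * w := by
        have h5 := nrm_tri (sm v y) (x i) 0
        rw [sub_zero, sub_zero, nrm_comm (sm v y) (x i)] at h5
        linarith [mul_le_mul_of_nonneg_right hK hw0.le]
      have h5 : ∀ t : ℤ, (v : ℝ) * |(t : ℝ)| ≤ nrm (sm v y) → |t| ≤ (⌈1400 * K⌉₊ : ℤ) := by
        intro t ht
        have h6 : (v : ℝ) * |(t : ℝ)| ≤ v * (1400 * K) := by
          linarith [mul_le_mul_of_nonneg_left hwv (by positivity : 0 ≤ 7 * K)]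
        have h7 := le_of_mul_le_mul_left h6 hv0
        have h8 := h7.trans (Nat.le_ceil (1400 * K))
        exact_mod_cast h8
      have h6 : (v : ℝ) * |(y.1 : ℝ)| ≤ nrm (sm v y) := by
        have h7 : (v : ℝ) * |(y.1 : ℝ)| = |((v : ℝ) * (y.1 : ℝ))| := by
          rw [abs_mul, abs_of_pos hv0]
        rw [h7]
        refine abs_le_of_sq_le_sq ?_ (nrm_nonneg _)
        rw [nrm_sq]
        unfold nsq sm
        push_cast
        linarith [sq_nonneg ((v : ℝ) * (y.2 : ℝ))]
      have h7 : (v : ℝ) * |(y.2 : ℝ)| ≤ nrm (sm v y) := by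
        have h7 : (v : ℝ) * |(y.2 : ℝ)| = |((v : ℝ) * (y.2 : ℝ))| := by
          rw [abs_mul, abs_of_pos hv0]
        rw [h7]
        refine abs_le_of_sq_le_sq ?_ (nrm_nonneg _)
        rw [nrm_sq]
        unfold nsq sm
        push_cast
        linarith [sq_nonneg ((v : ℝ) * (y.1 : ℝ))]
      have h8 := abs_le.1 (h5 y.1 h6)
      have h9 := abs_le.1 (h5 y.2 h7)
      unfold box
      rw [Finset.mem_product, Finset.mem_Icc, Finset.mem_Icc]
      exact ⟨h8, h9⟩
    · rw [mem_eb] at hb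
      push_cast at hb
      have h3 : nrm (b - x i) ≤ 11 * v := by
        have h4 := nrm_tri b (sm v y) (x i)
        rw [nrm_comm (sm v y) (x i)] at h4
        linarith
      have h4 := f_le p (b - x i)
      have h5 := g_le p (b - x i)
      rw [f_sub] at h4
      rw [g_sub] at h5
      have h6 : nrm p * nrm (b - x i) ≤ nrm p * (11 / 100 * w) :=
        mul_le_mul_of_nonneg_left (by linarith) hn.le
      have h7 := abs_sub_abs_le_abs_sub (fdet p b : ℝ) (fdet p (x i) : ℝ)
      have h8 := abs_sub_abs_le_abs_sub (gdot p b : ℝ) (gdot p (x i) : ℝ)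
      have h9 := abs_sub_abs_le_abs_sub (fdet p (x i) : ℝ) (fdet p b : ℝ)
      rw [abs_sub_comm] at h9
      rw [Finset.mem_sdiff, (hRCT p K (4 * w) hp0 hK (by linarith)).1 b,
        (hRCT p K w hp0 hK hw0.le).1 b]
      refine ⟨⟨by linarith, ?_⟩, fun h10 => ?_⟩
      · have h10 := mul_le_mul_of_nonneg_right hK hwn.le
        linarith
      · have h11 := h10.1
        have h12 : (2 * R : ℝ) * nrm p ≤ (w / 100) * nrm p :=
          mul_le_mul_of_nonneg_right (by linarith) hn.le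
        linarith
  have hsub : ∀ a b : Site, (fun x => l * |(fdet p x : ℝ)| / nrm p) (a + b) ≤
      (fun x => l * |(fdet p x : ℝ)| / nrm p) a + (fun x => l * |(fdet p x : ℝ)| / nrm p) b := by
    intro a b
    simp only
    rw [f_add, ← add_div, ← mul_add]
    exact div_le_div_of_nonneg_right (mul_le_mul_of_nonneg_left (abs_add_le _ _) hl0.le) hn.le
  have hup : ∀ a : Site, (fun x => l * |(fdet p x : ℝ)| / nrm p) a ≤ l * nrm a := by
    intro a
    simp only
    rw [div_le_iff₀ hn]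
    have h1 := f_le p a
    nlinarith
  have hch := chain2 hDM hJ hsub hup hl0.le hv hp (i₁ - i₀) i₀ (by omega) (fun i h1 h2 =>
    hgood i h1 (by omega))
  have h5 : i₀ + (i₁ - i₀) = i₁ := by omega
  rw [h5, Nat.cast_sub h01.le] at hch
  rw [f_sub] at hch
  have h6 := abs_sub_abs_le_abs_sub (fdet p (x i₁) : ℝ) (fdet p (x i₀) : ℝ)
  have h7 : w * nrm p ≤ |(fdet p (x i₁) : ℝ) - (fdet p (x i₀) : ℝ)| := by
    have := f1.2
    linarith
  have h8 : l * w ≤ l * |(fdet p (x i₁) : ℝ) - (fdet p (x i₀) : ℝ)| / nrm p := by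
    rw [le_div_iff₀ hn, mul_assoc]
    exact mul_le_mul_of_nonneg_left h7 hl0.le
  have h9 : (i₁ : ℝ) ≤ k := by exact_mod_cast k1
  have h10 : (0 : ℝ) ≤ i₀ := Nat.cast_nonneg _
  have h11 := mul_le_mul_of_nonneg_left hvw hl0.le
  have h12 := mul_le_mul_of_nonneg_right hl hw0.le
  have h13 : 0 < K * w := by positivity
  linarith

theorem pf_SP (hDM : Z_DM) (hMEA : B_MEA) (hRCT : P_RCT) : B_SP := by
  intro R J hJ ε p K l hp0 hK hl hpB
  obtain ⟨w₁, hw₁⟩ := hpB
  have : IsProbabilityMeasure gam := by unfold gam; infer_instance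
  set C : ℝ := ((box ⌈1400 * K⌉₊).card : ℝ) with hC
  have hC0 : 0 ≤ C := Nat.cast_nonneg _
  refine ⟨200 * (20 * R + 20 + w₁) + C * 200 ^ 20 + 1, fun w hw => ?_⟩
  have hR0 : (0 : ℝ) ≤ R := Nat.cast_nonneg R
  have hw10 : (0 : ℝ) ≤ w₁ := Nat.cast_nonneg w₁
  have hCp : 0 ≤ C * 200 ^ 20 := by positivity
  have hw0 : 0 < w := by linarith
  have hw1 : 1 ≤ w := by linarith
  set v : ℕ := ⌊w / 100⌋₊ with hv
  have hv1 : (v : ℝ) ≤ w / 100 := Nat.floor_le (by positivity)
  have hv2 : w / 100 < v + 1 := Nat.lt_floor_add_one _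
  have hv3 : w ≤ 200 * (v : ℝ) := by linarith
  have hv4 : 20 * (R : ℝ) + 20 + w₁ ≤ v := by linarith
  have hv5 : 20 * R + 20 ≤ v := by
    have : (20 * (R : ℝ) + 20) ≤ v := by linarith
    exact_mod_cast this
  have hv6 : w₁ ≤ v := by
    have : (w₁ : ℝ) ≤ v := by linarith
    exact_mod_cast this
  have hsub : {η : Site → ℝ | SP R J (fun x => ε * η x) p K w} ⊆
      ⋃ y ∈ box ⌈1400 * K⌉₊, {η : Site → ℝ | BadN R J (fun x => ε * η x)
        (fun x => l * |(fdet p x : ℝ)| / nrm p) v (sm v y)} := by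
    intro η hη
    obtain ⟨y, hy, hb⟩ := sp_bad hDM hRCT hJ (fun x => ε * η x) hp0 hK hl hv5 (by linarith) hv3 hη
    exact Set.mem_iUnion₂.2 ⟨y, hy, hb⟩
  have h1 : (gam {η : Site → ℝ | SP R J (fun x => ε * η x) p K w}).toReal ≤
      ∑ y ∈ box ⌈1400 * K⌉₊, (gam {η : Site → ℝ | BadN R J (fun x => ε * η x)
        (fun x => l * |(fdet p x : ℝ)| / nrm p) v (sm v y)}).toReal := by
    rw [← ENNReal.toReal_sum (fun y _ => measure_ne_top _ _)]
    refine ENNReal.toReal_mono ?_ ((measure_mono hsub).trans (measure_biUnion_finset_le _ _))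
    exact (ENNReal.sum_lt_top.2 fun y _ => measure_lt_top _ _).ne
  refine h1.trans ?_
  have h2 : ∀ y ∈ box ⌈1400 * K⌉₊, (gam {η : Site → ℝ | BadN R J (fun x => ε * η x)
      (fun x => l * |(fdet p x : ℝ)| / nrm p) v (sm v y)}).toReal ≤ ((v : ℝ) ^ 20)⁻¹ := by
    intro y _
    rw [(hMEA R J hJ ε (fun x => l * |(fdet p x : ℝ)| / nrm p) v (sm v y)).2.2]
    exact hw₁ v hv6
  refine (Finset.sum_le_card_nsmul _ _ _ h2).trans ?_
  rw [nsmul_eq_mul, ← hC]
  have hv0 : (0 : ℝ) < v := by linarith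
  rw [← div_eq_mul_inv, div_le_iff₀ (by positivity), inv_mul_eq_div, le_div_iff₀ (by positivity)]
  have h3 : w ^ 20 ≤ (200 * (v : ℝ)) ^ 20 := pow_le_pow_left₀ hw0.le hv3 20
  rw [mul_pow] at h3
  have h4 : C * 200 ^ 20 ≤ w ^ 15 := by
    have h5 : w ≤ w ^ 15 := le_self_pow₀ hw1 (by norm_num)
    linarith
  have h5 : C * 200 ^ 20 * w ^ 5 ≤ w ^ 15 * w ^ 5 :=
    mul_le_mul_of_nonneg_right h4 (by positivity)
  have h6 : w ^ 15 * w ^ 5 = w ^ 20 := by ring
  have h7 : 200 ^ 20 * (C * w ^ 5) ≤ 200 ^ 20 * (v : ℝ) ^ 20 := by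
    calc 200 ^ 20 * (C * w ^ 5) = C * 200 ^ 20 * w ^ 5 := by ring
      _ ≤ w ^ 20 := by rw [← h6]; exact h5
      _ ≤ 200 ^ 20 * (v : ℝ) ^ 20 := h3
  exact le_of_mul_le_mul_left h7 (by positivity)

end Pool.Agent.H80.RFZ
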